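import Pool.Agent.P.MP_3c7ff8_pr.Defs
import Pool.Agent.P.MP_3c7ff8_pr.Proof

open MeasureTheory Pool.Agent.P.MP_3c7ff8_pr

namespace Pool.Agent.Results.MP_3c7ff8_pr.ErgodicMixing

/-- The unique invariant measure of every ergodic probabilistic cellular automaton on `ℤ^d`
(finite alphabet `S`, neighbourhood `n_1, …, n_m`, local rule `φ`) is spatially mixing. -/
theorem result (d m : ℕ) (S : Type) [Fintype S] [TopologicalSpace S] [DiscreteTopology S]
    [MeasurableSpace S] [DiscreteMeasurableSpace S]
    (n : Fin m → Fin d → ℤ) (φ : (Fin m → S) → PMF S) (π : Measure (Config d S))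
    (h : IsErgodicWith n φ π) : IsSpatiallyMixing π :=
  isSpatiallyMixing_of_ergodic n φ h

end Pool.Agent.Results.MP_3c7ff8_pr.ErgodicMixing
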